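import Mathlib
import Pool.Agent.Lib.MP_a267a3_lc.M.All

/-!
# `PΓL₂(F)` is maximal-closed for every algebraically closed field of positive transcendence degree

For every algebraically closed field `F` which is not algebraic over its prime field (no
restriction on the cardinality, the characteristic or the universe), the group of permutations of
the projective line induced by semilinear bijections of `F²` is a maximal-closed subgroup of the
symmetric group of the line.
-/

set_option autoImplicit false

namespace Pool.Agent.Results.MP_a267a3_lc.Maximal

/-- Let `F` be algebraically closed and not algebraic over its prime field. The set `G` of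
permutations of the projective line induced by semilinear bijections of `F²` is closed in
`Sym(P¹)`, it is not everything, and every closed subgroup containing it equals it or is
everything. -/
theorem result (F : Type*) [Field F] [IsAlgClosed F]
    (hna : ¬ Algebra.IsAlgebraic (⊥ : Subfield F) F)
    (G : Set (Equiv.Perm (Projectivization F (Fin 2 → F))))
    (hG : ∀ σ : Equiv.Perm (Projectivization F (Fin 2 → F)),
        σ ∈ G ↔ ∃ (φ : F ≃+* F)
          (f : (Fin 2 → F) →ₛₗ[φ.toRingHom] (Fin 2 → F))
          (hf : Function.Injective f),
          ⇑σ = Projectivization.map f hf) :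
    (∀ σ : Equiv.Perm (Projectivization F (Fin 2 → F)),
        (∀ A : Finset (Projectivization F (Fin 2 → F)),
          ∃ g ∈ G, ∀ x ∈ A, g x = σ x) → σ ∈ G) ∧
      G ≠ Set.univ ∧
      ∀ H : Subgroup (Equiv.Perm (Projectivization F (Fin 2 → F))),
        (∀ σ : Equiv.Perm (Projectivization F (Fin 2 → F)),
          (∀ A : Finset (Projectivization F (Fin 2 → F)),
            ∃ h ∈ H, ∀ x ∈ A, h x = σ x) → σ ∈ H) →
        G ⊆ (H : Set (Equiv.Perm (Projectivization F (Fin 2 → F)))) →
        (H : Set (Equiv.Perm (Projectivization F (Fin 2 → F)))) = G ∨ H = ⊤ :=
  Pool.Agent.MPa267.M.maximal_all F hna G hG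

end Pool.Agent.Results.MP_a267a3_lc.Maximal
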